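import Pool.Agent.U481.HW.Stm2
import Pool.Agent.Helper458.Dav.P_trunc_ae

/-!
# Project HW, package LIMQ: from the smooth truncations to the Hilbert transform (Fatou)
-/

set_option autoImplicit false

open MeasureTheory Filter Topology Set
open scoped ENNReal NNReal Real

namespace Pool.Agent.U2.HW.LIMQ

open Pool.Dav Pool.Agent.U481.HW

theorem continuous_QQ (f : ℝ → ℂ) (hf : Integrable f) (δ : ℝ) (hδ : 0 < δ) :
    Continuous (QQ f δ) := by
  unfold QQ
  have hpos : ∀ u : ℝ, 0 < u ^ 2 + δ ^ 2 := fun u => by positivity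
  refine continuous_of_dominated (bound := fun t => (π⁻¹ * δ⁻¹) * ‖f t‖) ?_ ?_ ?_ ?_
  · intro x
    have h1 : Continuous fun t : ℝ => ((π⁻¹ * ((x - t) / ((x - t) ^ 2 + δ ^ 2)) : ℝ) : ℂ) := by
      refine Complex.continuous_ofReal.comp ?_
      refine continuous_const.mul (Continuous.div (by fun_prop) (by fun_prop) fun t => (hpos _).ne')
    exact h1.aestronglyMeasurable.mul hf.1
  · intro x
    refine Eventually.of_forall fun t => ?_
    rw [norm_mul]
    refine mul_le_mul_of_nonneg_right ?_ (norm_nonneg _)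
    rw [Complex.norm_real, Real.norm_eq_abs, abs_mul, abs_of_pos (by positivity : (0:ℝ) < π⁻¹)]
    refine mul_le_mul_of_nonneg_left ?_ (by positivity)
    rw [abs_div, abs_of_pos (hpos _), div_le_iff₀ (hpos _), inv_mul_eq_div, le_div_iff₀ hδ]
    have h1 : |x - t| ^ 2 = (x - t) ^ 2 := sq_abs _
    nlinarith [sq_nonneg (|x - t| - δ), abs_nonneg (x - t)]
  · exact hf.norm.const_mul _
  · refine Eventually.of_forall fun t => ?_
    refine Continuous.mul ?_ continuous_const
    refine Complex.continuous_ofReal.comp ?_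
    exact continuous_const.mul (Continuous.div (by fun_prop) (by fun_prop) fun x => (hpos _).ne')

theorem main : S_hmwQ → S_hmw := by
  intro H p hp w K hw
  obtain ⟨C, hC, hB⟩ := H p hp w K hw
  refine ⟨C, hC, fun f hf hR => ?_⟩
  have hp0 : 0 < p := by linarith
  set d : ℕ → ℝ := fun n => 1 / ((n : ℝ) + 1) with hd
  have hdpos : ∀ n, 0 < d n := fun n => by simp only [hd]; positivity
  have hdlim : Tendsto d atTop (𝓝[>] (0:ℝ)) :=
    tendsto_nhdsWithin_iff.2 ⟨tendsto_one_div_add_atTop_nhds_zero_nat,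
      Eventually.of_forall fun n => hdpos n⟩
  have hpt : ∀ᵐ x, ‖hilbert f x‖ₑ ^ p * w x ≤
      liminf (fun n => ‖QQ f (d n) x‖ₑ ^ p * w x) atTop := by
    filter_upwards [trunc_ae f hf] with x hx
    by_cases h : ∃ v, HasHilbert f x v
    · have hv : HasHilbert f x (hilbert f x) := by
        have : hilbert f x = h.choose := by unfold hilbert; rw [dif_pos h]
        rw [this]; exact h.choose_spec
      have h1 : Tendsto (fun δ : ℝ => QQ f δ x) (𝓝[>] (0:ℝ)) (𝓝 (hilbert f x)) := by
        have := hx.add hv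
        simpa using this
      have h2 : Tendsto (fun n => QQ f (d n) x) atTop (𝓝 (hilbert f x)) := h1.comp hdlim
      have h3 : Tendsto (fun n => ‖QQ f (d n) x‖ₑ ^ p) atTop (𝓝 (‖hilbert f x‖ₑ ^ p)) :=
        (ENNReal.continuous_rpow_const.tendsto _).comp ((continuous_enorm.tendsto _).comp h2)
      by_cases h0 : ‖hilbert f x‖ₑ ^ p = 0
      · rw [h0, zero_mul]; exact zero_le
      · exact (ENNReal.Tendsto.mul_const h3 (Or.inl h0)).liminf_eq.ge
    · have : hilbert f x = 0 := by unfold hilbert; rw [dif_neg h]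
      rw [this, enorm_zero, ENNReal.zero_rpow_of_pos hp0, zero_mul]
      exact zero_le
  calc (∫⁻ x, ‖hilbert f x‖ₑ ^ p * w x)
      ≤ ∫⁻ x, liminf (fun n => ‖QQ f (d n) x‖ₑ ^ p * w x) atTop := lintegral_mono_ae hpt
    _ ≤ liminf (fun n => ∫⁻ x, ‖QQ f (d n) x‖ₑ ^ p * w x) atTop := by
        refine lintegral_liminf_le fun n => ?_
        have h1 : Measurable (QQ f (d n)) := (continuous_QQ f hf (d n) (hdpos n)).measurable
        exact (h1.enorm.pow_const p).mul hw.meas
    _ ≤ liminf (fun _ : ℕ => C * ∫⁻ x, ‖f x‖ₑ ^ p * w x) atTop :=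
        liminf_le_liminf (Eventually.of_forall fun n => hB (d n) (hdpos n) f hf hR)
    _ = C * ∫⁻ x, ‖f x‖ₑ ^ p * w x := liminf_const _

end Pool.Agent.U2.HW.LIMQ
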